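import Pool.Agent.R940.HDefs

/-!
# Motives for absolute Hodge cycles and products with varieties of CM type: definitions
-/

universe u

namespace Pool.Agent.R936.Mot

open CategoryTheory H914 H914.VarClass H914.VarClass.Obj H914.WeilCohomology Y121.AHS R940

variable {k : Type u} [Field k] {𝒱 : VarClass k} {ops : CycleOps 𝒱}

/-- The morphism `(z, z', p) ↦ (z', z)`. -/
noncomputable def toZZ (Z P : 𝒱.Obj) : Z.prod (Z.prod P) ⟶ Z.prod Z :=
  Obj.lift (snd Z (Z.prod P) ≫ fst Z P) (fst Z (Z.prod P))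

/-- The morphism `(z, z', p) ↦ (z, p)`. -/
noncomputable def toZP (Z P : 𝒱.Obj) : Z.prod (Z.prod P) ⟶ Z.prod P :=
  Obj.lift (fst Z (Z.prod P)) (snd Z (Z.prod P) ≫ snd Z P)

/-- The cup product. -/
noncomputable def cup {W : WeilCohomology.{u, 0} ops} {Y : 𝒱.Obj} (a b : W.H Y) : W.H Y := a * b

/-- The image of the class `c` on `Z × P` under the correspondence `γ` (on `Z × Z`) times the diagonal
of `P`: the push-forward along `(z, z', p) ↦ (z', p)` of the product of the pull-backs of `γ` and `c`. -/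
noncomputable def comp {W : WeilCohomology.{u, 0} ops} {Z P : 𝒱.Obj} (γ : W.H (Z.prod Z))
    (c : W.H (Z.prod P)) : W.H (Z.prod P) :=
  W.push (snd Z (Z.prod P)) (cup (W.map (toZZ Z P) γ) (W.map (toZP Z P) c))

/-- The images under `γ` of the Hodge classes on `Z × P` are absolutely Hodge. If `γ` is idempotent
these are the Hodge classes of `H(M) ⊗ H(P)`, where `M = (Z, γ)`: the Hodge realization is full on
the groups `Hom(1(-r), M ⊗ h(P))`. -/
def FullOn {T : HodgeTheory ops} (D : Conjugates T) {Z : 𝒱.Obj} (γ : T.W.H (Z.prod Z))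
    (P : 𝒱.Obj) : Prop :=
  ∀ (j : ℕ) (c : T.W.H (Z.prod P)), IsHodge T (Z.prod P) j c → IsAbsHodge D (Z.prod P) j (comp γ c)

end Pool.Agent.R936.Mot
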