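import Pool.Agent.R936.Vh.Lev
import Pool.Agent.R936.Mot.Defs
import Pool.Agent.R936.Two.Fin

/-!
# Hodge classes in the image of a correspondence of bounded level: the theorem
-/

set_option linter.unusedVariables false
set_option linter.unusedSectionVars false

open CategoryTheory AlgebraicGeometry TensorProduct

universe u v w

namespace Pool.Agent.R936.Mot

open Pool.Agent.H914 Pool.Agent.W534 VarClass Obj WeilCohomology Module
open Pool.Agent
open Pool.Agent.Y121 Pool.Agent.Y121.AHS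
open Pool.Agent.Y163 (HBasis)
open Pool.Agent.H281R3.HT
open Pool.Agent.Y133.Half (ClassPred spanCycles_of_algSpan)
open Pool.Agent.W536.RR (cl_mem_algSpan)
open Pool.Agent.R940 (CMB csH csH_smul csH_map csH_em csH_gr csH_inj HSub em_HSub
  cs_ind cs_tmul type_bound deg_eq repr_zero em_SG mem_of_SG pq_top SG SG_ind
  NonnegTypes IsCM HodgeConj exists_cycle)
open Pool.Agent.R936
open Pool.Agent.R936.Hel (Cl toZ Lt IsCan isCan_prod' lwf)
open Pool.Agent.R936.Hel2 (BB CC opL pt wt st rank_le HG HodgeGroupDimLe IsFactorBound Few prodOf_eq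
  hodge_red algCl clL)
open Pool.Agent.R936.Per (Fix HC KC dual_letter' exists_cmb')
open Pool.Agent.R936.Arb
open Pool.Agent.R936.Vh (lin gL lev_arb gL_ind gL_em lin_zw zw_ind contr_lin)

variable {k : Type u} [Field k] {𝒱 : VarClass k} {ops : CycleOps 𝒱} {I : Type w} {X : I → 𝒱.Obj}

section AH

variable {T : AH.HodgeTheory ops}

theorem exists_uniL [Nonempty I]
    (hpos : ∀ (Y : 𝒱.Obj) (p q : ℤ), p < 0 ∨ q < 0 → T.pq Y p q = ⊥)
    {f : ∀ i, T.W.H (X i) →ₗ[T.W.K] T.W.H (X i)} (hf : ∀ i, Squarefree (LinearMap.charpoly (f i)))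
    (hgr : ∀ i, ∀ j, ∀ x ∈ T.W.gr (X i) j, f i x ∈ T.W.gr (X i) j)
    (hpq : ∀ i, ∀ (p q : ℤ), ∀ x : HC T (X i), x ∈ T.pq (X i) p q →
      opL ℂ (f i) x ∈ T.pq (X i) p q)
    {R : ℕ} {E : Fin R → ∀ i, (T.W.H (X i) →ₗ[T.W.K] T.W.H (X i))} {z : Fin R → ℂ}
    (hE : ∀ (i : I) (p q : ℤ) (x : (baseW T.W ℂ).H (X i)), x ∈ T.pq (X i) p q →
      ∑ j, (show (baseW T.W ℂ).K from z j) • opL ℂ (E j i) x =
        (show (baseW T.W ℂ).K from ((p - q : ℤ) : ℂ)) • x) :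
    ∃ (i0 : I) (L0 : List I),
      ∀ (G : Cl T.W), (∀ i L, HG G (Hel.prodOf X i L)) →
        ∀ (ℓ : ℕ) (Z Z' : 𝒱.Obj) (g : T.W.H Z →ₗ[T.W.K] T.W.H Z'),
          (∀ (p q : ℤ) (x : (baseW T.W ℂ).H Z), x ∈ T.pq Z p q → (ℓ : ℤ) < |p - q| →
            gL ℂ g x = 0) →
          (∀ J (c : T.W.H (Z.prod (Hel.prodOf X i0 (powL L0 i0 ℓ)))), AH.IsHodge T _ J c →
            lin g _ c ∈ G.C (Z'.prod (Hel.prodOf X i0 (powL L0 i0 ℓ)))) →
          ∀ i Lst J (c : T.W.H (Z.prod (Hel.prodOf X i Lst))), AH.IsHodge T _ J c →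
            lin g _ c ∈ G.C (Z'.prod (Hel.prodOf X i Lst)) := by
  classical
  obtain ⟨i1⟩ := ‹Nonempty I›
  let L := AlgebraicClosure T.W.K
  have hchar : CharZero L := charZero_of_injective_algebraMap (algebraMap T.W.K L).injective
  let σ₀ : L →ₐ[T.W.K] ℂ := IsAlgClosed.lift
  have hfix : Fix T L := by
    intro x hx
    have h1 := (InfiniteGalois.mem_bot_iff_fixed (k := T.W.K) (K := L) x).2 fun τ => hx τ
    exact IntermediateField.mem_bot.1 h1
  have hM := fun i : I => exists_cmb' (T := T) (X := X i) (L := L) (f := f i) (hf i) (hgr i)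
      (fun p q x hx => hpq i p q x hx) (IsAlgClosed.splits _)
  choose M μ hμ hMμ using hM
  rcases isEmpty_or_nonempty (Σ i, Fin (finrank T.W.K (T.W.H (X i)))) with hem | ⟨⟨l0⟩⟩
  · -- no letters
    have h0 : ∀ (Z : 𝒱.Obj) i Lst (c : T.W.H (Z.prod (Hel.prodOf X i Lst))), c = 0 := by
      intro Z i Lst c
      obtain ⟨g⟩ := exists_pr X Lst i
      have h1 : (1 : T.W.H (X i)) = 0 := by
        apply AH.em_injective (W := T.W) (L := L)
        have h2 := (M i).B.b.sum_repr (AH.em T.W L 1)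
        rw [← h2]
        exact Finset.sum_eq_zero fun a _ => (hem.false ⟨i, a⟩).elim
      have h2 : (1 : T.W.H (Z.prod (Hel.prodOf X i Lst))) = 0 := by
        have h3 := congrArg (T.W.map (snd Z _ ≫ g)) h1
        rwa [map_one, map_zero] at h3
      rw [← mul_one c, h2, mul_zero]
    refine ⟨i1, [], fun G _ ℓ Z Z' g _ _ i Lst j c _ => ?_⟩
    rw [h0 _ _ _ c, map_zero]
    exact Submodule.zero_mem _
  -- dual letters
  have hd := fun l : (Σ i, Fin (finrank T.W.K (T.W.H (X i)))) => dual_letter' (M := M) hpos l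
  choose st' hst1 hst2 using hd
  have hst : ∀ l, Hel2.wt M (st' l) = - Hel2.wt M l := by
    intro l
    funext σ
    have h1 := hst2 l σ true
    have h2 := hst2 l σ false
    rw [Pi.neg_apply, Hel2.wt, Hel2.wt]
    omega
  -- letters of degree zero
  have hz : ∀ l : (Σ i, Fin (finrank T.W.K (T.W.H (X i)))), HasZ (Hel2.wt M) l.1 := by
    intro l
    by_contra hcon
    have h1 : ∀ a, (M l.1).B.deg a ≠ 0 := by
      intro a ha
      apply hcon
      refine ⟨a, ?_⟩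
      funext σ
      obtain ⟨h1, h2, h3⟩ := deg_eq (M l.1) hpos σ a
      rw [ha, Nat.cast_zero] at h1
      have h4 : pt M σ true ⟨l.1, a⟩ = (M l.1).p σ a := rfl
      have h5 : pt M σ false ⟨l.1, a⟩ = (M l.1).q σ a := rfl
      rw [Hel2.wt, h4, h5, Pi.zero_apply]
      omega
    have h2 : ∀ a, (M l.1).B.b.repr (1 : (baseW T.W L).H (X l.1)) a = 0 := fun a =>
      repr_zero ((baseW T.W L).isInternal (X l.1)).submodule_iSupIndep (M l.1).B.b
        (fun a => (M l.1).B.deg a) (fun a => (M l.1).B.mem a) ((baseW T.W L).one_mem _) (h1 a)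
    have h3 : (1 : (baseW T.W L).H (X l.1)) = 0 := by
      rw [← (M l.1).B.b.sum_repr 1]
      exact Finset.sum_eq_zero fun a _ => by rw [h2, zero_smul]
    apply (M l.1).B.b.ne_zero l.2
    rw [← mul_one ((M l.1).B.b l.2), h3, mul_zero]
  obtain ⟨L0, hL0⟩ := exists_product (h := Hel2.wt M) (fun s => rank_le M hE s) hst hz l0
  refine ⟨l0.1, L0, fun G hG ℓ Z Z' g hlev hZ i Lst J c hc => ?_⟩
  exact lev_arb hpos M hfix σ₀ (fun Rl hRl => algS_of_HG M hfix σ₀ hpos hG hRl)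
    (fun Rl hRl => hL0 ℓ Rl hRl) g hlev hZ i Lst hc

end AH

variable {T : AHS.HodgeTheory ops}

lemma comp_gr {W : WeilCohomology.{u, 0} ops} {Z P : 𝒱.Obj} {γ : W.H (Z.prod Z)}
    (hγ : γ ∈ W.gr (Z.prod Z) (2 * Z.dim)) {i : ℕ} {c : W.H (Z.prod P)}
    (hc : c ∈ W.gr (Z.prod P) i) : Mot.comp γ c ∈ W.gr (Z.prod P) i := by
  have h1 := W.push_mem (snd Z (Z.prod P)) (W.mul_mem (W.map_mem (Mot.toZZ Z P) hγ)
    (W.map_mem (Mot.toZP Z P) hc))
  have h2 : (((2 * Z.dim + i : ℕ) : ℤ) + 2 * (((Z.prod P).dim : ℤ) - ((Z.prod (Z.prod P)).dim : ℤ))) =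
      ((i : ℕ) : ℤ) := by
    have e1 : (Z.prod P).dim = Z.dim + P.dim := rfl
    have e2 : (Z.prod (Z.prod P)).dim = Z.dim + (Z.dim + P.dim) := rfl
    rw [e1, e2]
    push_cast
    ring
  rw [h2, grZ_natCast] at h1
  exact h1

lemma pred_proj {W : WeilCohomology.{u, 0} ops} {Q : ClassPred W} {Y : 𝒱.Obj} {j : ℕ} {x : W.H Y}
    (hx : x ∈ Q.sp Y) (hg : x ∈ W.gr Y (2 * j)) : Q.P Y j x := by
  have h := ClassPred.sp_proj hx j
  rwa [proj_same _ hg] at h

lemma full_iff {D : Conjugates T} {Z : 𝒱.Obj} {γ : T.W.H (Z.prod Z)}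
    (hγ : γ ∈ T.W.gr (Z.prod Z) (2 * Z.dim)) (P : 𝒱.Obj) :
    FullOn D γ P ↔ ∀ J (c : T.W.H (Z.prod P)), AH.IsHodge (toH T) _ J c →
      lin (W := (toH T).W) (Vh.act (W := (toH T).W) γ) P c ∈
        (predCl (AH.absPred (toD D))).C (Z.prod P) := by
  have e : ∀ c : T.W.H (Z.prod P), lin (W := (toH T).W) (Vh.act (W := (toH T).W) γ) P c =
      Mot.comp γ c := fun c => (contr_lin (W := (toH T).W) γ c).symm
  constructor
  · intro h J c hc
    rw [e]
    exact ClassPred.sp_of (Q := AH.absPred (toD D)) (h J c hc)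
  · intro h J c hc
    have h1 := h J c hc
    rw [e] at h1
    exact pred_proj (Q := AH.absPred (toD D)) h1 (comp_gr (W := (toH T).W) hγ hc.1)

theorem exists_full [Nonempty I] (D : Conjugates T) (hpos : NonnegTypes T) (hX : ∀ i, IsCM T (X i))
    {R : ℕ} (hR : HodgeGroupDimLe T X R)
    (h : ∀ i L, (∃ F : Finset I, F.card ≤ R + 1 ∧ ∀ j ∈ i :: L, j ∈ F) →
      HodgeAbsolute D (Hel2.prodOf X i L)) :
    ∃ (i0 : I) (L0 : List I), ∀ (ℓ : ℕ) (Z : 𝒱.Obj) (γ : T.W.H (Z.prod Z)),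
      γ ∈ T.W.gr (Z.prod Z) (2 * Z.dim) →
      (∀ (p q : ℤ) (x : (baseW (toH T).W ℂ).H Z), x ∈ (toH T).pq Z p q → (ℓ : ℤ) < |p - q| →
        gL (T := toH T) ℂ (Vh.act (W := (toH T).W) γ) x = 0) →
        (FullOn D γ (Arb.powerOf X i0 L0 ℓ) ↔ ∀ i L, FullOn D γ (Hel2.prodOf X i L)) := by
  have h0 : ∀ i L, HodgeAbsolute D (Hel2.prodOf X i L) :=
    pred_red hpos hX hR (m := ⊤) (Or.inl rfl) (AH.absPred (toD D)) (fun i L hL => h i L hL.1)
  have hall : ∀ i L, HG (T := toH T) (predCl (AH.absPred (toD D))) (Hel.prodOf X i L) := by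
    intro i L
    rw [← prodOf_eq]
    exact (hg_pred (AH.absPred (toD D)) _).2 (h0 i L)
  choose f hf hgr hpq using hX
  obtain ⟨E, z, hE⟩ := hR
  obtain ⟨i0, L0, h1⟩ := exists_uniL (T := toH T) (X := X) hpos (f := f) hf hgr hpq
    (R := R) (E := E) (z := z) (fun i p q x hx => hE i p q x hx)
  refine ⟨i0, L0, fun ℓ Z γ hγ hlev => ⟨fun hD i L => ?_, fun hD => hD _ _⟩⟩
  rw [prodOf_eq]
  rw [powerOf_eq] at hD
  exact (full_iff hγ _).2 (h1 _ hall ℓ Z Z (Vh.act (W := (toH T).W) γ) hlev ((full_iff hγ _).1 hD)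
    i L)

end Pool.Agent.R936.Mot
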